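import Pool.Agent.helper96.S5.SpecR

/-! Row s5:FED (MP_0b485e_lc): a permitted right piece is fed infinitely often. -/

set_option autoImplicit false

namespace S5

open PF

theorem FED_cn (B : BD) (k : ℕ) (hG : B.Gd k) (i : ℕ) : Monotone fun s => B.cn i k s :=
  monotone_nat_of_le_succ (hG.mono i)

theorem FED_row (hFAI : FAI_stmt) : FED_stmt := by
  classical
  intro B k hG j hRS hal u0
  by_contra hno
  have hne : ∀ u, u0 ≤ u → sel (B.pA k) u ≠ j + 1 := by
    intro u hu h
    exact hno ⟨u, hu, h⟩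
  set c : ℕ := (hst (B.pA k) u0).count (j + 1) with hc
  have hcount : ∀ u, u0 ≤ u → (hst (B.pA k) u).count (j + 1) = c := fun u hu =>
    hst_count_const (B.pA k) (j + 1) u0 hne u hu
  have hbig : ∀ m : ℕ, ∃ u1, ∀ u, u1 ≤ u → ∀ i < m, i < (pcc j).1.length → ent (pcc j).1 i ≠ 0 →
      c < B.cn i k u := by
    intro m
    induction m with
    | zero => exact ⟨0, fun u _ i hi => absurd hi (by omega)⟩
    | succ m ih =>
      obtain ⟨u1, h1⟩ := ih
      by_cases hm : m < (pcc j).1.length ∧ ent (pcc j).1 m ≠ 0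
      · obtain ⟨s, hs⟩ := (hRS.1 m hm.1).1 hm.2 c
        refine ⟨max u1 s, fun u hu i hi hl he => ?_⟩
        rcases Nat.lt_succ_iff_lt_or_eq.1 hi with h2 | h2
        · exact h1 u ((le_max_left _ _).trans hu) i h2 hl he
        · subst h2
          exact lt_of_lt_of_le hs (FED_cn B k hG i ((le_max_right _ _).trans hu))
      · refine ⟨u1, fun u hu i hi hl he => ?_⟩
        rcases Nat.lt_succ_iff_lt_or_eq.1 hi with h2 | h2
        · exact h1 u hu i h2 hl he
        · subst h2
          exact absurd ⟨hl, he⟩ hm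
  obtain ⟨u1, hu1⟩ := hbig (pcc j).1.length
  have hinf : ∀ t0, ∃ t, t0 ≤ t ∧ B.pA k t (hst (B.pA k) t) j := by
    intro t0
    obtain ⟨u, hu, hfit⟩ := hRS.2.1 (t0 + u0 + u1 + j + 1 + c + 1)
    have h0 := hcount u (by omega)
    refine ⟨u, by omega, by omega, by omega, hfit, hal, fun i hi he => ?_⟩
    rw [h0]
    exact hu1 u (by omega) i hi hi he
  obtain ⟨t, ht, hsel⟩ := hFAI (B.pA k) j hinf u0
  exact hne t ht hsel

end S5
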