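import Pool.Agent.helper96.S5.SpecR

/-! Row s5:PRX (MP_0b485e_lc): elements whose ticket contains only true conditions are processed. -/

set_option autoImplicit false

namespace S5

open PF

theorem PRX_mono (B : BD) (k : ℕ) (hG : B.Gd k) (i t s : ℕ) (h : B.dc i k t s ≠ 0) :
    ∀ r, s ≤ r → B.dc i k t r ≠ 0 := by
  intro r hr
  induction r, hr using Nat.le_induction with
  | base => exact h
  | succ r _ ih => rw [hG.dcp i t r ih]; exact ih

theorem PRX_row : PRX_stmt := by
  classical
  intro B k hG t hC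
  -- a common stage
  have hex : ∀ m : ℕ, ∃ s, t < s ∧ ∀ i < m, i < (B.th k t).1.length → ent (B.th k t).1 i ≠ 0 →
      B.dc i k t s ≠ 0 := by
    intro m
    induction m with
    | zero => exact ⟨t + 1, by omega, fun i hi => absurd hi (by omega)⟩
    | succ m ih =>
      obtain ⟨s, hs, h⟩ := ih
      by_cases hm : m < (B.th k t).1.length ∧ ent (B.th k t).1 m ≠ 0
      · obtain ⟨s', hs'⟩ := hG.h2 m (hC m hm.1 hm.2) t
        refine ⟨max s s', lt_of_lt_of_le hs (le_max_left _ _), fun i hi hl he => ?_⟩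
        rcases Nat.lt_succ_iff_lt_or_eq.1 hi with h1 | h1
        · exact PRX_mono B k hG i t s (h i h1 hl he) _ (le_max_left _ _)
        · subst h1
          exact PRX_mono B k hG i t s' hs' _ (le_max_right _ _)
      · refine ⟨s, hs, fun i hi hl he => ?_⟩
        rcases Nat.lt_succ_iff_lt_or_eq.1 hi with h1 | h1
        · exact h i h1 hl he
        · subst h1
          exact absurd ⟨hl, he⟩ hm
  have hrd : ∃ s, B.rd k t s := by
    obtain ⟨s, hs, h⟩ := hex (B.th k t).1.length
    exact ⟨s, hs, fun i hi he => h i hi hi he⟩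
  refine ⟨Nat.find hrd, ?_⟩
  unfold BD.prc
  rw [Nat.unpair_pair]
  exact ⟨Nat.find_spec hrd, fun s' hs' => Nat.find_min hrd hs'⟩

end S5
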