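import Pool.Agent.helper96.S5.SpecV

/-! Row s5:RSF (MP_0b485e_lc): finitely many right pieces of bounded length. -/

set_option autoImplicit false

namespace S5

open PF

theorem RSF_sqrt (P : Set ℕ) (hP : P.Finite) : {j : ℕ | Nat.sqrt j ∈ P}.Finite := by
  obtain ⟨M, hM⟩ := hP.bddAbove
  refine (Set.finite_lt_nat ((M + 1) * (M + 1))).subset ?_
  intro j hj
  have h1 : Nat.sqrt j ≤ M := hM hj
  have h2 : Nat.sqrt j < M + 1 := Nat.lt_succ_of_le h1
  exact Nat.sqrt_lt.1 h2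

theorem RSF_row (hRSM : RSM_stmt) (hRSU : RSU_stmt) (hGDD : GDD_stmt) : RSF_stmt := by
  intro X hX k n c
  have hG : X.B.Gd k := hGDD X hX k
  have hfin : (pcc '' {j | (pcc j).1.length < n ∧ (pcc j).2.2 = c ∧
      X.B.RS k (pcc j).1 (pcc j).2.1}).Finite := by
    have hinj : Set.InjOn (fun x : List ℕ × ℕ × ℕ => (x.1.length, x.2.1))
        (pcc '' {j | (pcc j).1.length < n ∧ (pcc j).2.2 = c ∧
          X.B.RS k (pcc j).1 (pcc j).2.1}) := by
      rintro x ⟨j, ⟨h1, h2, h3⟩, rfl⟩ y ⟨j', ⟨h1', h2', h3'⟩, rfl⟩ hxy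
      have e1 : (pcc j).1.length = (pcc j').1.length := congrArg Prod.fst hxy
      have e2 : (pcc j).2.1 = (pcc j').2.1 := congrArg Prod.snd hxy
      have e3 : (pcc j).1 = (pcc j').1 :=
        hRSU X.B k hG _ _ (pcc j).2.1 h3 (by rw [e2]; exact h3') e1
      have e4 : (pcc j).2.2 = (pcc j').2.2 := by rw [h2, h2']
      exact Prod.ext e3 (Prod.ext e2 e4)
    refine Set.Finite.of_finite_image ?_ hinj
    refine ((Set.finite_lt_nat n).prod (Set.finite_lt_nat X.B.lam)).subset ?_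
    rintro _ ⟨_, ⟨j, ⟨h1, _, h3⟩, rfl⟩, rfl⟩
    exact ⟨h1, (hRSM X.B k hG _ (pcc j).1 _ h3).2.2⟩
  refine (RSF_sqrt _ (hfin.image Encodable.encode)).subset ?_
  intro j hj
  exact ⟨pcc j, ⟨j, hj, rfl⟩, pcc_enc j⟩

end S5
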